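import Mathlib
import Pool.Agent.Lib.CookLevin.Defs
import Pool.Agent.Lib.MP_007122_lc.Defs
import Pool.Agent.Lib.MP_007122_lc.Hard
import Pool.Agent.Lib.MP_007122_lc.InNP

/-!
# Recognising graphs whose odd cycles have short diagonals is coNP-complete

The reduction.  Let `K` be a clique of hubs.  Every item has two ends, which are joined to all
hubs.  Every route `r` belongs to an item and has a hub set `S r`; it is joined to the two ends of
its item and to the hubs outside of `S r`.  There are two more adjacent vertices `a`, `b`; `a` is
joined to the hubs different from `t`, and `b` to the hubs different from `s`.  In a cycle of
length at least five without short diagonals a hub is followed by an end, a route of the item, the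
other end and a hub, both hubs in the hub set of the route, or the four vertices `s`, `a`, `b`, `t`
follow each other.  So an odd cycle without short diagonals is a path of hubs from `t` to `s` along
routes of different items, closed up by `a` and `b`.  Such paths encode the satisfying assignments
of a 3SAT instance: clause `j` is a choice between three strands of hubs from hub `j` to hub
`j + 1`, one for every literal, with a route for every occurrence of a literal in the instance, and
if two occurrences are opposite literals, then the two routes have the same item.
-/

namespace Pool.Agent.Results.MP_007122_lc.RecognitionCoNPComplete

open Pool.Agent.MP_007122_lc

/-- `L` is coNP-complete: its complement is NP-complete. -/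
def CoNPComplete (L : Set (List Bool)) : Prop := Pool.Agent.CookLevin.NPComplete Lᶜ

/-- Deciding whether every odd cycle of length at least five of a graph, given by its adjacency
matrix, has a short diagonal is coNP-complete. -/
theorem result : CoNPComplete shortChordedGraphs := ⟨inNP_compl, npHard_compl⟩

end Pool.Agent.Results.MP_007122_lc.RecognitionCoNPComplete
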